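import Mathlib
import Pool.Agent.Lib.MP_24cacf_an.Upper
import Pool.Agent.Lib.MP_24cacf_an.Lower

namespace Pool.Agent.Results.MP_24cacf_an.OrderOfMagnitude

open Set Real MeasureTheory
open scoped ENNReal NNReal Pointwise

/-- The Euclidean plane. -/
abbrev Plane := EuclideanSpace ℝ (Fin 2)

/-- The Hausdorff distance (in `[0,∞]`) of two plane sets induced by the max-norm: the space
`Fin 2 → ℝ` carries the max-norm. -/
noncomputable def r (F G : Set Plane) : ℝ≥0∞ :=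
  Metric.hausdorffEDist ((fun v : Plane => (fun i => v i : Fin 2 → ℝ)) '' F)
    ((fun v : Plane => (fun i => v i : Fin 2 → ℝ)) '' G)

/-- The polynomial curve `{(P(t), Q(t)) : t ∈ [0,1]}` as a point set. -/
def polyCurve (P Q : Polynomial ℝ) : Set Plane :=
  (fun t : ℝ => (!₂[P.eval t, Q.eval t] : Plane)) '' Icc (0 : ℝ) 1

/-- The set `H_n²` of polynomial curves of degree at most `n`. -/
def H2 (n : ℕ) : Set (Set Plane) :=
  {γ | ∃ P Q : Polynomial ℝ, P.natDegree ≤ n ∧ Q.natDegree ≤ n ∧ γ = polyCurve P Q}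

/-- `E(H_n²; F)`. -/
noncomputable def E (n : ℕ) (F : Set Plane) : ℝ≥0∞ := ⨅ γ ∈ H2 n, r F γ

/-- The class `Γ_1^0` of closed convex curves of length `1`: boundaries of compact convex sets with
nonempty interior whose length (one-dimensional Hausdorff measure of the Euclidean plane) is `1`. -/
def Gamma10 : Set (Set Plane) :=
  {F | ∃ K : Set Plane, IsCompact K ∧ Convex ℝ K ∧ (interior K).Nonempty ∧ F = frontier K ∧
    μH[1] F = 1}

/-- `e_n = E(H_n²; Γ_1^0)`. -/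
noncomputable def e (n : ℕ) : ℝ≥0∞ := ⨆ F ∈ Gamma10, E n F

open Pool.Agent.Lib.MP_24cacf_an in
lemma edist_le_norm (v w : Plane) :
    edist (fun i => v i : Fin 2 → ℝ) (fun i => w i : Fin 2 → ℝ) ≤ ENNReal.ofReal ‖v - w‖ := by
  rw [edist_dist]
  apply ENNReal.ofReal_le_ofReal
  rw [dist_pi_le_iff (norm_nonneg _)]
  intro i
  rw [Real.dist_eq]
  exact PiLp.norm_apply_le (v - w) i

open Pool.Agent.Lib.MP_24cacf_an in
theorem e_upper (n : ℕ) : e n ≤ ENNReal.ofReal (194560 / ((n : ℝ) + 2) ^ 2) := by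
  unfold e
  refine iSup₂_le fun F hF => ?_
  obtain ⟨K, hK, hc, hint, rfl, hlen⟩ := hF
  obtain ⟨x₀, hx₀⟩ := hint
  have hx₀K := interior_subset hx₀
  have hball : ∀ y ∈ K, ‖y - x₀‖ ≤ 1 := by
    intro y hy
    have := norm_sub_le_hausdorff hK hc hx₀K hy
    rw [hlen] at this
    exact ENNReal.ofReal_le_one.1 this
  obtain ⟨P, Q, hP, hQ, h1, h2⟩ := upper hK hc ⟨x₀, hx₀⟩ x₀ hball n
  unfold E
  refine (iInf₂_le (polyCurve P Q) ⟨P, Q, hP, hQ, rfl⟩).trans ?_
  unfold r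
  apply Metric.hausdorffEDist_le_of_mem_edist
  · rintro _ ⟨q, hq, rfl⟩
    obtain ⟨t, ht, h⟩ := h2 q hq
    refine ⟨_, ⟨_, ⟨t, ht, rfl⟩, rfl⟩, ?_⟩
    refine (edist_le_norm _ _).trans (ENNReal.ofReal_le_ofReal ?_)
    rw [norm_sub_rev]; exact h
  · rintro _ ⟨_, ⟨t, ht, rfl⟩, rfl⟩
    obtain ⟨q, hq, h⟩ := h1 t ht
    refine ⟨_, ⟨q, hq, rfl⟩, ?_⟩
    exact (edist_le_norm _ _).trans (ENNReal.ofReal_le_ofReal h)

lemma abs_sub_le_of_edist {v w : Plane} {c : ℝ} (hc : 0 ≤ c)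
    (h : edist (fun i => v i : Fin 2 → ℝ) (fun i => w i : Fin 2 → ℝ) < ENNReal.ofReal c) (i : Fin 2) :
    |v i - w i| ≤ c := by
  rw [edist_dist] at h
  have h1 := (ENNReal.ofReal_lt_ofReal_iff_of_nonneg dist_nonneg).1 h
  have h2 := dist_le_pi_dist (fun i => v i : Fin 2 → ℝ) (fun i => w i : Fin 2 → ℝ) i
  rw [Real.dist_eq] at h2
  linarith

open Pool.Agent.Lib.MP_24cacf_an in
theorem e_lower (n : ℕ) : ENNReal.ofReal (1 / (768 * ((n : ℝ) + 1) ^ 2)) ≤ e n := by
  have hN : 1 ≤ n + 1 := by omega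
  set K := Kp (n + 1) with hKdef
  have hK : IsCompact K := Kp_compact hN
  have hc : Convex ℝ K := Kp_convex _
  have hint : (interior K).Nonempty := Kp_interior hN
  -- perimeter
  have hhalf : μH[1] (frontier ((1 / 2 : ℝ) • K)) ≤ 16 := by
    apply hausdorff_frontier_le (hK.smul _) (hc.smul _) _ 0
    · rintro _ ⟨v, hv, rfl⟩
      have := Kp_norm hN hv
      simp only [sub_zero, norm_smul]
      norm_num
      linarith
    · rw [interior_smul₀ (by norm_num)]
      exact hint.smul_set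
  have hfr : ∀ c : ℝ, c ≠ 0 → frontier (c • K) = c • frontier K := by
    intro c hc0
    rw [(hK.smul c).isClosed.frontier_eq, hK.isClosed.frontier_eq, interior_smul₀ hc0,
      smul_set_sdiff₀ hc0]
  rw [hfr _ (by norm_num), Measure.hausdorffMeasure_smul₀ zero_le_one (by norm_num)] at hhalf
  set ℓ := (μH[1] (frontier K)).toReal with hℓ
  have hfin : μH[1] (frontier K) ≠ ∞ := by
    intro htop
    rw [htop] at hhalf
    simp [ENNReal.smul_def] at hhalf
  have hℓle : ℓ ≤ 32 := by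
    have h1 : ((2 : ℝ≥0∞)) * μH[1] (frontier K) / 2 ≤ 32 := by
      have h3 : μH[1] (frontier K) ≤ 32 := by
        have h4 : (‖(1 / 2 : ℝ)‖₊ ^ (1 : ℝ) : ℝ≥0) = 1 / 2 := by
          rw [NNReal.rpow_one]
          ext
          simp
        rw [h4, ENNReal.smul_def, smul_eq_mul] at hhalf
        have h5 : (((1 / 2 : ℝ≥0)) : ℝ≥0∞) = 2⁻¹ := by
          rw [one_div, ENNReal.coe_inv (by norm_num)]; rfl
        rw [h5] at hhalf
        calc μH[1] (frontier K) = 2 * (2⁻¹ * μH[1] (frontier K)) := by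
              rw [← mul_assoc, ENNReal.mul_inv_cancel (by norm_num) (by norm_num), one_mul]
          _ ≤ 2 * 16 := by gcongr
          _ = 32 := by norm_num
      calc _ = μH[1] (frontier K) := by
            rw [mul_comm, mul_div_assoc, ENNReal.div_self (by norm_num) (by norm_num), mul_one]
        _ ≤ 32 := h3
    rw [mul_comm, mul_div_assoc, ENNReal.div_self (by norm_num) (by norm_num), mul_one] at h1
    exact ENNReal.toReal_le_of_le_ofReal (by norm_num) (by simpa using h1)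
  have hℓpos : 0 < ℓ := by
    have h0 := vertex_mem hN (i := 0) (by simp)
    have h1 := vertex_mem hN (i := -1) (by simp)
    have h2 := norm_sub_le_hausdorff hK hc (hK.isClosed.frontier_subset h0) (hK.isClosed.frontier_subset h1)
    have h3 : 0 < ENNReal.ofReal ‖(!₂[((-1 : ℤ) : ℝ) / (n + 1 : ℕ), ((-1 : ℤ) : ℝ) ^ 2 / (n + 1 : ℕ) ^ 2] : E2)
        - !₂[((0 : ℤ) : ℝ) / (n + 1 : ℕ), ((0 : ℤ) : ℝ) ^ 2 / (n + 1 : ℕ) ^ 2]‖ := by
      rw [ENNReal.ofReal_pos, norm_pos_iff, sub_ne_zero]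
      intro h
      have h4 := congrArg (fun v : E2 => v 0) h
      simp at h4
      have : (n : ℝ) + 1 ≠ 0 := by positivity
      contradiction
    exact ENNReal.toReal_pos (lt_of_lt_of_le h3 h2).ne' hfin
  -- the scaled body
  have hℓinv : (ℓ⁻¹ : ℝ) ≠ 0 := inv_ne_zero hℓpos.ne'
  set K' : Set Plane := (ℓ⁻¹ : ℝ) • K with hK'
  have hmem : frontier K' ∈ Gamma10 := by
    refine ⟨K', hK.smul _, hc.smul _, ?_, rfl, ?_⟩
    · rw [hK', interior_smul₀ hℓinv]; exact hint.smul_set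
    · rw [hK', hfr _ hℓinv, Measure.hausdorffMeasure_smul₀ zero_le_one hℓinv, NNReal.rpow_one,
        ENNReal.smul_def, smul_eq_mul, ← ENNReal.ofReal_toReal hfin, ← hℓ]
      rw [← enorm_eq_nnnorm, Real.enorm_eq_ofReal (by positivity), ← ENNReal.ofReal_mul (by positivity),
        inv_mul_cancel₀ hℓpos.ne', ENNReal.ofReal_one]
  refine le_trans ?_ (le_iSup₂ (f := fun F _ => E n F) (frontier K') hmem)
  unfold E
  refine le_iInf₂ fun γ hγ => ?_
  obtain ⟨P, Q, hP, hQ, rfl⟩ := hγ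
  by_contra hlt
  push Not at hlt
  set c : ℝ := 1 / (768 * ((n : ℝ) + 1) ^ 2) with hcdef
  have hc0 : 0 < c := by positivity
  -- choose strict constant
  unfold r at hlt
  obtain ⟨c', hc'1, hc'2⟩ := ENNReal.lt_iff_exists_real_btwn.1 hlt
  obtain ⟨hc'2, hc'3⟩ := hc'2
  have hc'c : c' < c := by
    exact (ENNReal.ofReal_lt_ofReal_iff_of_nonneg hc'1).1 hc'3
  have hx1 : ∀ q ∈ frontier K, ∃ t ∈ Icc (0 : ℝ) 1,
      |ℓ * P.eval t - q 0| ≤ ℓ * c' ∧ |ℓ * Q.eval t - q 1| ≤ ℓ * c' := by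
    intro q hq
    have hq' : (ℓ⁻¹ : ℝ) • q ∈ frontier K' := by
      rw [hK', hfr _ hℓinv]; exact smul_mem_smul_set hq
    obtain ⟨y, hy, hd⟩ := Metric.exists_edist_lt_of_hausdorffEDist_lt
      (mem_image_of_mem (fun v : Plane => (fun i => v i : Fin 2 → ℝ)) hq') hc'2
    obtain ⟨_, ⟨t, ht, rfl⟩, rfl⟩ := hy
    refine ⟨t, ht, ?_, ?_⟩
    · have := abs_sub_le_of_edist hc'1 hd 0
      simp at this
      have e1 : ℓ * P.eval t - q 0 = -(ℓ * (ℓ⁻¹ * q 0 - P.eval t)) := by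
        field_simp; ring
      rw [e1, abs_neg, abs_mul, abs_of_pos hℓpos]
      exact mul_le_mul_of_nonneg_left this hℓpos.le
    · have := abs_sub_le_of_edist hc'1 hd 1
      simp at this
      have e1 : ℓ * Q.eval t - q 1 = -(ℓ * (ℓ⁻¹ * q 1 - Q.eval t)) := by
        field_simp; ring
      rw [e1, abs_neg, abs_mul, abs_of_pos hℓpos]
      exact mul_le_mul_of_nonneg_left this hℓpos.le
  have hx2 : ∀ t ∈ Icc (0 : ℝ) 1, ∃ q ∈ K,
      |ℓ * P.eval t - q 0| ≤ ℓ * c' ∧ |ℓ * Q.eval t - q 1| ≤ ℓ * c' := by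
    intro t ht
    rw [Metric.hausdorffEDist_comm] at hc'2
    obtain ⟨y, hy, hd⟩ := Metric.exists_edist_lt_of_hausdorffEDist_lt
      (mem_image_of_mem (fun v : Plane => (fun i => v i : Fin 2 → ℝ))
        (show (!₂[P.eval t, Q.eval t] : Plane) ∈ polyCurve P Q from ⟨t, ht, rfl⟩)) hc'2
    obtain ⟨q', hq', rfl⟩ := hy
    rw [hK', hfr _ hℓinv] at hq'
    obtain ⟨q, hq, rfl⟩ := hq'
    refine ⟨q, hK.isClosed.frontier_subset hq, ?_, ?_⟩
    · have := abs_sub_le_of_edist hc'1 hd 0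
      simp at this
      have e1 : ℓ * P.eval t - q 0 = (ℓ * (P.eval t - ℓ⁻¹ * q 0)) := by
        field_simp
      rw [e1, abs_mul, abs_of_pos hℓpos]
      exact mul_le_mul_of_nonneg_left this hℓpos.le
    · have := abs_sub_le_of_edist hc'1 hd 1
      simp at this
      have e1 : ℓ * Q.eval t - q 1 = (ℓ * (Q.eval t - ℓ⁻¹ * q 1)) := by
        field_simp
      rw [e1, abs_mul, abs_of_pos hℓpos]
      exact mul_le_mul_of_nonneg_left this hℓpos.le
  have hcore := lower_core hN (Polynomial.C ℓ * P) (Polynomial.C ℓ * Q)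
    ((Polynomial.natDegree_C_mul_le _ _).trans hP) ((Polynomial.natDegree_C_mul_le _ _).trans hQ)
    (ℓ * c') (by positivity) (by
      have h1 : ℓ * c' < 32 * c := by
        calc ℓ * c' ≤ 32 * c' := mul_le_mul_of_nonneg_right hℓle hc'1
          _ < 32 * c := by linarith
      have h2 : 24 * (((n + 1 : ℕ) : ℝ)) ^ 2 * (32 * c) = 1 := by
        rw [hcdef]; push_cast; field_simp; norm_num
      have h3 : 0 < 24 * (((n + 1 : ℕ) : ℝ)) ^ 2 := by positivity
      calc 24 * (((n + 1 : ℕ) : ℝ)) ^ 2 * (ℓ * c') < 24 * (((n + 1 : ℕ) : ℝ)) ^ 2 * (32 * c) :=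
            mul_lt_mul_of_pos_left h1 h3
        _ = 1 := h2)
    (by
      intro i hi
      obtain ⟨t, ht, a1, a2⟩ := hx1 _ (vertex_mem hN hi)
      refine ⟨t, ht, ?_, ?_⟩
      · simpa using a1
      · simpa using a2)
    (by
      intro t ht
      obtain ⟨q, hq, a1, a2⟩ := hx2 t ht
      refine ⟨q, hq, ?_, ?_⟩
      · simpa using a1
      · simpa using a2)
  omega

/-- The order of magnitude of `e_n` is `n⁻²`, with explicit absolute constants and for every `n`. -/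
theorem result (n : ℕ) :
    ENNReal.ofReal (1 / (768 * ((n : ℝ) + 1) ^ 2)) ≤ e n ∧
      e n ≤ ENNReal.ofReal (194560 / ((n : ℝ) + 2) ^ 2) :=
  ⟨e_lower n, e_upper n⟩

end Pool.Agent.Results.MP_24cacf_an.OrderOfMagnitude
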